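import Pool.Agent.H71.DP.Defs

/-!
# dp-rank of global types: compactness
-/

set_option autoImplicit false

open FirstOrder FirstOrder.Language

namespace Pool.Agent.H71.DP

variable {L : FirstOrder.Language.{0, 0}}

/-- compactness: a finitely satisfiable family of formulas with parameters is satisfied in an
elementary extension -/
theorem comp {N : Type} [L.Structure N] [Nonempty N] {V I : Type} (Φ : I → L.Formula (N ⊕ V))
    (h : ∀ J : Finset I, ∃ v : V → N, ∀ i ∈ J, (Φ i).Realize (Sum.elim id v)) :
    ∃ (N' : Type) (_ : L.Structure N') (f : N ↪ₑ[L] N') (v : V → N'),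
      ∀ i, (Φ i).Realize (Sum.elim f v) := by
  classical
  choose w hw using h
  -- an ultrafilter on the finite sets of indices
  let B : I → Set (Finset I) := fun i => {J | i ∈ J}
  have hne : (Filter.generate (Set.range B)).NeBot := by
    rw [Filter.generate_neBot_iff]
    intro t ht htf
    obtain ⟨J, hJ⟩ : ∃ J : Finset I, ∀ s ∈ t, ∃ i ∈ J, B i = s := by
      have h1 : ∀ s ∈ t, ∃ i, B i = s := fun s hs => ht hs
      choose g hg using h1
      refine ⟨htf.toFinset.attach.image fun s => g s.1 (htf.mem_toFinset.1 s.2),
        fun s hs => ⟨g s hs, ?_, hg s hs⟩⟩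
      exact Finset.mem_image.2 ⟨⟨s, htf.mem_toFinset.2 hs⟩, Finset.mem_attach _ _, rfl⟩
    refine ⟨J, fun s hs => ?_⟩
    obtain ⟨i, hi, rfl⟩ := hJ s hs
    exact hi
  let u : Ultrafilter (Finset I) := @Ultrafilter.of _ (Filter.generate (Set.range B)) hne
  have hu : ∀ i, ∀ᶠ J in (u : Filter (Finset I)), i ∈ J := by
    intro i
    have h1 : B i ∈ Filter.generate (Set.range B) := Filter.mem_generate_of_mem ⟨i, rfl⟩
    exact (@Ultrafilter.of_le _ (Filter.generate (Set.range B)) hne) h1
  let P : Type := (u : Filter (Finset I)).Product fun _ => N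
  let f : N ↪ₑ[L] P :=
    { toFun := fun a => ((fun _ => a : Finset I → N) : (u : Filter (Finset I)).Product fun _ => N)
      map_formula' := by
        intro n φ x
        have h1 := Ultraproduct.realize_formula_cast (u := u) (M := fun _ : Finset I => N) φ
          (fun j _ => x j)
        refine h1.trans ?_
        exact Filter.eventually_const }
  refine ⟨P, inferInstance, f, fun z => ((fun J => w J z : Finset I → N) :
    (u : Filter (Finset I)).Product fun _ => N), fun i => ?_⟩
  have h1 := Ultraproduct.realize_formula_cast (u := u) (M := fun _ : Finset I => N) (Φ i)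
    (Sum.elim (fun a _ => a) fun z J => w J z)
  have h2 : (fun j => ((Sum.elim (fun a _ => a) fun z J => w J z : N ⊕ V → Finset I → N) j :
      (u : Filter (Finset I)).Product fun _ => N)) =
      Sum.elim f fun z => ((fun J => w J z : Finset I → N) :
        (u : Filter (Finset I)).Product fun _ => N) := by
    funext j
    rcases j with a | z <;> rfl
  rw [h2] at h1
  refine h1.2 ((hu i).mono fun J hJ => ?_)
  have h3 := hw J i hJ
  have h4 : (fun j => (Sum.elim (fun a _ => a) fun z J => w J z : N ⊕ V → Finset I → N) j J) =
      Sum.elim id (w J) := by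
    funext j
    rcases j with a | z <;> rfl
  rw [h4]
  exact h3

end Pool.Agent.H71.DP
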