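import Pool.Agent.H71.DP.A

/-!
# dp-rank of global types: tools
-/

set_option autoImplicit false

open FirstOrder FirstOrder.Language

namespace Pool.Agent.H71.DP

variable {L : FirstOrder.Language.{0, 0}} {M : Type} [L.Structure M]

theorem realize_sub {A : Set M} {D X : Type} (c : D → M) (v : X → M)
    (φ : L.Formula ((A ⊕ D) ⊕ X)) : (sub c φ).Realize (Sum.elim id v) ↔ Tr c v φ := by
  unfold sub Tr
  rw [Formula.realize_relabel]
  have h : (Sum.elim id v ∘ Sum.map (Sum.elim (fun a : A => (a : M)) c) id :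
      (A ⊕ D) ⊕ X → M) = Sum.elim (Sum.elim (fun a : A => (a : M)) c) v := by
    funext z
    rcases z with (a | d) | x <;> rfl
  rw [h]

theorem not_both {X : Type} (p : GType L M X) {φ ψ : L.Formula (M ⊕ X)} (h : φ ∈ p.S)
    (h' : ψ ∈ p.S) (hn : ∀ v : X → M, φ.Realize (Sum.elim id v) → ¬ ψ.Realize (Sum.elim id v)) :
    False := by
  obtain ⟨v, hv⟩ := p.fin {φ, ψ} (by simp) (by
    intro χ hχ
    rcases hχ with rfl | rfl
    · exact h
    · exact h')
  exact hn v (hv φ (by simp)) (hv ψ (by simp))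

/-- membership depends only on the set defined by the formula -/
theorem mem_congr {X : Type} (p : GType L M X) {φ ψ : L.Formula (M ⊕ X)} (h : φ ∈ p.S)
    (he : ∀ v : X → M, φ.Realize (Sum.elim id v) → ψ.Realize (Sum.elim id v)) : ψ ∈ p.S := by
  rcases p.cmp ψ with h1 | h1
  · exact h1
  · refine (not_both p h h1 fun v h2 h3 => ?_).elim
    rw [Formula.realize_not] at h3
    exact h3 (he v h2)

theorem mem_or_not {A : Set M} {D X : Type} (p : GType L M X) (c : D → M)
    (φ : L.Formula ((A ⊕ D) ⊕ X)) : sub c φ ∈ p.S ∨ sub c φ.not ∈ p.S := by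
  rcases p.cmp (sub c φ) with h | h
  · exact Or.inl h
  · refine Or.inr (mem_congr p h fun v hv => ?_)
    rw [Formula.realize_not, realize_sub] at hv
    rw [realize_sub]
    unfold Tr
    rw [Formula.realize_not]
    exact hv

/-- finite families of formulas which are satisfied by a tuple of an elementary extension are
satisfied by a tuple -/
theorem elem_ex {N : Type} [L.Structure N] (f : M ↪ₑ[L] N) {P W ι : Type} [Finite W] [Finite ι]
    (G : ι → L.Formula (P ⊕ W)) (e : P → M) (w : W → N)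
    (h : ∀ i, (G i).Realize (Sum.elim (f ∘ e) w)) :
    ∃ v : W → M, ∀ i, (G i).Realize (Sum.elim e v) := by
  have h1 : ((Formula.iInf G).iExs W).Realize (f ∘ e) := by
    rw [Formula.realize_iExs]
    refine ⟨w, ?_⟩
    rw [Formula.realize_iInf]
    exact h
  rw [f.map_formula, Formula.realize_iExs] at h1
  obtain ⟨v, hv⟩ := h1
  rw [Formula.realize_iInf] at hv
  exact ⟨v, hv⟩

/-- the same for tuples with the same type -/
theorem same_ex {P W ι : Type} [Finite W] [Finite ι] (G : ι → L.Formula (P ⊕ W)) (e e' : P → M)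
    (he : ∀ ρ : L.Formula P, ρ.Realize e' → ρ.Realize e) (w : W → M)
    (h : ∀ i, (G i).Realize (Sum.elim e' w)) : ∃ v : W → M, ∀ i, (G i).Realize (Sum.elim e v) := by
  have h1 : ((Formula.iInf G).iExs W).Realize e' := by
    rw [Formula.realize_iExs]
    refine ⟨w, ?_⟩
    rw [Formula.realize_iInf]
    exact h
  have h2 := he _ h1
  rw [Formula.realize_iExs] at h2
  obtain ⟨v, hv⟩ := h2
  rw [Formula.realize_iInf] at hv
  exact ⟨v, hv⟩

/-- a formula has finitely many parameters -/
theorem fin1 {X : Type} (θ : L.Formula (M ⊕ X)) : ∃ D0 : Finset M, ∀ D1 : Finset M, D0 ⊆ D1 →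
    ∃ θ' : L.Formula (D1 ⊕ X), ∀ (a : X → M) (v : M → M),
      θ'.Realize (Sum.elim (fun d : D1 => v d) a) ↔ θ.Realize (Sum.elim v a) := by
  classical
  refine ⟨θ.freeVarFinset.toLeft, fun D1 hD => ?_⟩
  let g : θ.freeVarFinset → D1 ⊕ X := fun z => match z with
    | ⟨Sum.inl d, hd⟩ => Sum.inl ⟨d, hD (Finset.mem_toLeft.2 hd)⟩
    | ⟨Sum.inr x, _⟩ => Sum.inr x
  refine ⟨BoundedFormula.restrictFreeVar θ g, fun a v => ?_⟩
  refine BoundedFormula.realize_restrictFreeVar (Sum.elim v a) ?_
  rintro ⟨d | x, hd⟩ <;> rfl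

end Pool.Agent.H71.DP
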