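import Pool.Agent.H71.DP.B

/-!
# dp-rank of global types: realising patterns
-/

set_option autoImplicit false

open FirstOrder FirstOrder.Language

namespace Pool.Agent.H71.DP

variable {L : FirstOrder.Language.{0, 0}} {M : Type} [L.Structure M]

/-- the formula which says that the truth value of `φ` is the right one -/
noncomputable def sgn {V : Type} (P : Prop) (φ : L.Formula V) : L.Formula V :=
  open Classical in if P then φ else φ.not

theorem realize_sgn {N : Type} [L.Structure N] {V : Type} (P : Prop) (φ : L.Formula V)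
    (v : V → N) : (sgn P φ).Realize v ↔ (φ.Realize v ↔ P) := by
  unfold sgn
  by_cases h : P
  · simp [h]
  · simp [h]

/-- all the realisations of a pattern exist in one elementary extension -/
theorem pat_real [Nonempty M] {X K : Type} {π : Set (L.Formula (M ⊕ X))} (h : HasPattern K π) :
    ∃ (N : Type) (_ : L.Structure N) (f : M ↪ₑ[L] N) (m : K → ℕ)
      (φ : ∀ α, L.Formula (X ⊕ Fin (m α))) (b : ∀ α, ℕ → Fin (m α) → N) (a : (K → ℕ) → X → N),
      (∀ η, ∀ θ ∈ π, θ.Realize (Sum.elim f (a η))) ∧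
        ∀ (η : K → ℕ) (z : K × ℕ), (φ z.1).Realize (Sum.elim (a η) (b z.1 z.2)) ↔
          z.2 = η z.1 := by
  classical
  obtain ⟨N₀, _, f₀, m, φ, b, h⟩ := h
  haveI : Nonempty N₀ := ⟨f₀ (Classical.arbitrary M)⟩
  let V : Type := (K → ℕ) × X
  let I : Type := (K → ℕ) × (π ⊕ (K × ℕ))
  let Φ : I → L.Formula (N₀ ⊕ V) := fun i => match i with
    | (η, Sum.inl θ) => (θ : L.Formula (M ⊕ X)).relabel (Sum.map f₀ fun x => (η, x))
    | (η, Sum.inr z) => sgn (z.2 = η z.1)
        ((φ z.1).relabel (Sum.elim (fun x => Sum.inr (η, x)) fun k => Sum.inl (b z.1 z.2 k)))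
  have key : ∀ J : Finset I, ∃ v : V → N₀, ∀ i ∈ J, (Φ i).Realize (Sum.elim id v) := by
    intro J
    have h1 : ∀ η : K → ℕ, ∃ a : X → N₀,
        (∀ θ : π, (η, Sum.inl θ) ∈ J → (θ : L.Formula (M ⊕ X)).Realize (Sum.elim f₀ a)) ∧
        ∀ z : K × ℕ, (η, Sum.inr z) ∈ J →
          ((φ z.1).Realize (Sum.elim a (b z.1 z.2)) ↔ z.2 = η z.1) := by
      intro η
      have hF : {θ : π | ((η, Sum.inl θ) : I) ∈ J}.Finite := by
        refine Set.Finite.preimage (f := fun θ : π => ((η, Sum.inl θ) : I)) ?_ J.finite_toSet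
        intro x _ y _ hxy
        simpa using hxy
      have hJ : {z : K × ℕ | ((η, Sum.inr z) : I) ∈ J}.Finite := by
        refine Set.Finite.preimage (f := fun z : K × ℕ => ((η, Sum.inr z) : I)) ?_ J.finite_toSet
        intro x _ y _ hxy
        simpa using hxy
      obtain ⟨a, ha1, ha2⟩ := h η ((fun θ : π => (θ : L.Formula (M ⊕ X))) ''
        {θ : π | ((η, Sum.inl θ) : I) ∈ J}) _ (hF.image _) (by
          rintro _ ⟨θ, _, rfl⟩
          exact θ.2) hJ
      exact ⟨a, fun θ hθ => ha1 _ ⟨θ, hθ, rfl⟩, fun z hz => ha2 z hz⟩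
    choose a ha1 ha2 using h1
    refine ⟨fun y => a y.1 y.2, ?_⟩
    rintro ⟨η, θ | z⟩ hi
    · show ((θ : L.Formula (M ⊕ X)).relabel (Sum.map f₀ fun x => (η, x))).Realize _
      rw [Formula.realize_relabel]
      have h2 : (Sum.elim id (fun y : V => a y.1 y.2) ∘ Sum.map f₀ fun x => (η, x) :
          M ⊕ X → N₀) = Sum.elim f₀ (a η) := by
        funext y
        rcases y with y | y <;> rfl
      rw [h2]
      exact ha1 η θ hi
    · show (sgn _ _).Realize _
      rw [realize_sgn, Formula.realize_relabel]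
      have h2 : (Sum.elim id (fun y : V => a y.1 y.2) ∘
          Sum.elim (fun x => Sum.inr (η, x)) fun k => Sum.inl (b z.1 z.2 k) :
          X ⊕ Fin (m z.1) → N₀) = Sum.elim (a η) (b z.1 z.2) := by
        funext y
        rcases y with y | y <;> rfl
      rw [h2]
      exact ha2 η z hi
  obtain ⟨N, _, f, v, hv⟩ := comp Φ key
  refine ⟨N, inferInstance, f.comp f₀, m, φ, fun α i k => f (b α i k), fun η x => v (η, x), ?_, ?_⟩
  · intro η θ hθ
    have h1 := hv (η, Sum.inl ⟨θ, hθ⟩)
    change ((θ : L.Formula (M ⊕ X)).relabel (Sum.map f₀ fun x => (η, x))).Realize _ at h1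
    rw [Formula.realize_relabel] at h1
    have h2 : (Sum.elim f v ∘ Sum.map f₀ fun x => (η, x) : M ⊕ X → N) =
        Sum.elim (f.comp f₀) fun x => v (η, x) := by
      funext y
      rcases y with y | y <;> rfl
    rw [h2] at h1
    exact h1
  · intro η z
    have h1 := hv (η, Sum.inr z)
    change (sgn _ _).Realize _ at h1
    rw [realize_sgn, Formula.realize_relabel] at h1
    have h2 : (Sum.elim f v ∘
        Sum.elim (fun x => Sum.inr (η, x)) fun k => Sum.inl (b z.1 z.2 k) :
        X ⊕ Fin (m z.1) → N) = Sum.elim (fun x => v (η, x)) fun k => f (b z.1 z.2 k) := by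
      funext y
      rcases y with y | y <;> rfl
    rw [h2] at h1
    exact h1

end Pool.Agent.H71.DP
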