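import Pool.Agent.H71.DP.C

/-!
# dp-rank of global types: co-invariant types
-/

set_option autoImplicit false

open FirstOrder FirstOrder.Language

namespace Pool.Agent.H71.DP

variable {L : FirstOrder.Language.{0, 0}} {M : Type} [L.Structure M]

/-- the restriction of `p` to `A` and a finite tuple is realised -/
theorem sat_real {A : Set M} (hs : SaturatedOver L A) {X D : Type} [Finite X] [Finite D]
    (p : GType L M X) (c : D → M) : ∃ a : X → M, Realizes p A c a := by
  obtain ⟨a, ha⟩ := hs D X c {φ | sub c φ ∈ p.S} (by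
    intro F hF hFS
    obtain ⟨v, hv⟩ := p.fin ((fun φ => sub c φ) '' F) (hF.image _) (by
      rintro _ ⟨φ, hφ, rfl⟩
      exact hFS hφ)
    exact ⟨v, fun φ hφ => (realize_sub c v φ).1 (hv _ ⟨φ, hφ, rfl⟩)⟩)
  exact ⟨a, fun φ hφ => ha φ hφ⟩

/-- two tuples which realise the restriction of `p` to `A` have the same type over `A` -/
theorem same_of {A : Set M} {X : Type} (p : GType L M X) {a a' : X → M}
    (h : ∀ ψ : L.Formula (A ⊕ X), ψ.relabel (Sum.map (fun a : A => (a : M)) id) ∈ p.S →
      ψ.Realize (Sum.elim (fun a : A => (a : M)) a))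
    (h' : ∀ ψ : L.Formula (A ⊕ X), ψ.relabel (Sum.map (fun a : A => (a : M)) id) ∈ p.S →
      ψ.Realize (Sum.elim (fun a : A => (a : M)) a')) : SameType L A a a' := by
  have key : ∀ ψ : L.Formula (A ⊕ X), ψ.relabel (Sum.map (fun a : A => (a : M)) id) ∉ p.S →
      ψ.not.relabel (Sum.map (fun a : A => (a : M)) id) ∈ p.S := by
    intro ψ hψ
    refine mem_congr p ((p.cmp _).resolve_left hψ) fun v hv => ?_
    rw [Formula.realize_not, Formula.realize_relabel] at hv
    rw [Formula.realize_relabel, Formula.realize_not]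
    exact hv
  intro ψ
  by_cases hψ : ψ.relabel (Sum.map (fun a : A => (a : M)) id) ∈ p.S
  · exact ⟨fun _ => h' ψ hψ, fun _ => h ψ hψ⟩
  · have h1 := h _ (key ψ hψ)
    have h2 := h' _ (key ψ hψ)
    rw [Formula.realize_not] at h1 h2
    exact ⟨fun h3 => (h1 h3).elim, fun h3 => (h2 h3).elim⟩

/-- the formulas over `A` of `p` -/
theorem over_of {A : Set M} {X D : Type} (p : GType L M X) (c : D → M) {a : X → M}
    (h : Realizes p A c a) (ψ : L.Formula (A ⊕ X))
    (hψ : ψ.relabel (Sum.map (fun a : A => (a : M)) id) ∈ p.S) :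
    ψ.Realize (Sum.elim (fun a : A => (a : M)) a) := by
  have h1 := h (ψ.relabel (Sum.map Sum.inl id)) (by
    refine mem_congr p hψ fun v hv => ?_
    rw [realize_sub]
    unfold Tr
    rw [Formula.realize_relabel] at hv ⊢
    have h2 : (Sum.elim (Sum.elim (fun a : A => (a : M)) c) v ∘ Sum.map Sum.inl id :
        A ⊕ X → M) = Sum.elim id v ∘ Sum.map (fun a : A => (a : M)) id := by
      funext y
      rcases y with y | y <;> rfl
    rw [h2]
    exact hv)
  unfold Tr at h1
  rw [Formula.realize_relabel] at h1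
  have h2 : (Sum.elim (Sum.elim (fun a : A => (a : M)) c) a ∘ Sum.map Sum.inl id :
      A ⊕ X → M) = Sum.elim (fun a : A => (a : M)) a := by
    funext y
    rcases y with y | y <;> rfl
  rw [h2] at h1
  exact h1

/-- the main step: a finite tuple `w₀` whose subtuples `e η` realise the restriction of `p` to `A`
can be moved over a finite tuple `c` such that the `e η` satisfy the restriction of `p` to `c` -/
theorem move {A : Set M} (hs : SaturatedOver L A) {X D E W : Type} [Finite X] [Finite D]
    [Finite E] [Finite W] (p : GType L M X) (hp : CoInvariant p A) (c : D → M) (w₀ : W → M)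
    (e : E → X → W)
    (he : ∀ η, ∀ ψ : L.Formula (A ⊕ X), ψ.relabel (Sum.map (fun a : A => (a : M)) id) ∈ p.S →
      ψ.Realize (Sum.elim (fun a : A => (a : M)) fun x => w₀ (e η x))) {ι ι' : Type} [Finite ι]
    [Finite ι'] (G : ι → L.Formula W) (hG : ∀ i, (G i).Realize w₀)
    (θ : ι' → E × L.Formula (D ⊕ X))
    (hθ : ∀ i, (θ i).2.relabel (Sum.map c id) ∈ p.S) :
    ∃ w : W → M, (∀ i, (G i).Realize w) ∧
      ∀ i, (θ i).2.Realize (Sum.elim c fun x => w (e (θ i).1 x)) := by
  classical
  obtain ⟨a₁, ha₁⟩ := sat_real hs p c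
  obtain ⟨q, hq, hqa⟩ := hp D c a₁ ha₁
  have ha₁A : ∀ ψ : L.Formula (A ⊕ X), ψ.relabel (Sum.map (fun a : A => (a : M)) id) ∈ p.S →
      ψ.Realize (Sum.elim (fun a : A => (a : M)) a₁) := fun ψ hψ => over_of p c ha₁ ψ hψ
  let a₀ : E × X → M := fun y => w₀ (e y.1 y.2)
  obtain ⟨c', hc'⟩ := sat_real hs q a₀
  -- the truth of formulas on `a₁, c` goes to `e η, c'`
  have h1 : ∀ (η : E) (ψ : L.Formula ((A ⊕ X) ⊕ D)), Tr a₁ c ψ →
      Tr (fun x => w₀ (e η x)) c' ψ := by
    intro η ψ hψ
    have h2 : sub (fun x => w₀ (e η x)) ψ ∈ q.S :=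
      (hq X _ _ (same_of p (he η) ha₁A) ψ).2 ((hqa ψ).2 hψ)
    have h3 : sub a₀ (ψ.relabel (Sum.map (Sum.map id fun x => (η, x)) id)) ∈ q.S := by
      refine mem_congr q h2 fun v hv => ?_
      rw [realize_sub] at hv ⊢
      unfold Tr at hv ⊢
      rw [Formula.realize_relabel]
      have h4 : (Sum.elim (Sum.elim (fun a : A => (a : M)) a₀) v ∘
          Sum.map (Sum.map id fun x => (η, x)) id : (A ⊕ X) ⊕ D → M) =
          Sum.elim (Sum.elim (fun a : A => (a : M)) fun x => w₀ (e η x)) v := by
        funext y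
        rcases y with (y | y) | y <;> rfl
      rw [h4]
      exact hv
    have h5 := hc' _ h3
    unfold Tr at h5 ⊢
    rw [Formula.realize_relabel] at h5
    have h4 : (Sum.elim (Sum.elim (fun a : A => (a : M)) a₀) c' ∘
        Sum.map (Sum.map id fun x => (η, x)) id : (A ⊕ X) ⊕ D → M) =
        Sum.elim (Sum.elim (fun a : A => (a : M)) fun x => w₀ (e η x)) c' := by
      funext y
      rcases y with (y | y) | y <;> rfl
    rw [h4] at h5
    exact h5
  -- `c'` and `c` have the same type
  have h2 : ∀ ρ : L.Formula D, ρ.Realize c → ρ.Realize c' := by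
    intro ρ hρ
    have h3 : sub a₁ (ρ.relabel (Sum.inr : D → (A ⊕ X) ⊕ D)) ∈ q.S := by
      refine (hqa _).2 ?_
      unfold Tr
      rw [Formula.realize_relabel]
      exact hρ
    have h4 : sub a₀ (ρ.relabel (Sum.inr : D → (A ⊕ (E × X)) ⊕ D)) ∈ q.S := by
      refine mem_congr q h3 fun v hv => ?_
      rw [realize_sub] at hv ⊢
      unfold Tr at hv ⊢
      rw [Formula.realize_relabel] at hv ⊢
      exact hv
    have h5 := hc' _ h4
    unfold Tr at h5
    rw [Formula.realize_relabel] at h5
    exact h5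
  have h2' : ∀ ρ : L.Formula D, ρ.Realize c' → ρ.Realize c := by
    intro ρ hρ
    by_contra h3
    have h4 := h2 ρ.not (by rw [Formula.realize_not]; exact h3)
    rw [Formula.realize_not] at h4
    exact h4 hρ
  obtain ⟨w, hw⟩ := same_ex (P := D) (W := W) (ι := ι ⊕ ι')
    (Sum.elim (fun i => (G i).relabel Sum.inr) fun i =>
      (θ i).2.relabel (Sum.elim Sum.inl fun x => Sum.inr (e (θ i).1 x))) c c' h2' w₀ (by
    rintro (i | i)
    · show ((G i).relabel _).Realize _
      rw [Formula.realize_relabel]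
      exact hG i
    · show ((θ i).2.relabel _).Realize _
      rw [Formula.realize_relabel]
      have h3 : Tr c a₁ ((θ i).2.relabel (Sum.map Sum.inr id) : L.Formula ((A ⊕ D) ⊕ X)) := by
        refine ha₁ _ (mem_congr p (hθ i) fun v hv => ?_)
        rw [realize_sub]
        unfold Tr
        rw [Formula.realize_relabel] at hv ⊢
        have h4 : (Sum.elim (Sum.elim (fun a : A => (a : M)) c) v ∘ Sum.map Sum.inr id :
            D ⊕ X → M) = Sum.elim id v ∘ Sum.map c id := by
          funext y
          rcases y with y | y <;> rfl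
        rw [h4]
        exact hv
      have h5 := h1 (θ i).1 ((θ i).2.relabel (Sum.elim Sum.inr fun x => Sum.inl (Sum.inr x))) (by
        unfold Tr at h3 ⊢
        rw [Formula.realize_relabel] at h3 ⊢
        have h4 : (Sum.elim (Sum.elim (fun a : A => (a : M)) a₁) c ∘
            Sum.elim Sum.inr fun x => Sum.inl (Sum.inr x) : D ⊕ X → M) =
            Sum.elim (Sum.elim (fun a : A => (a : M)) c) a₁ ∘ Sum.map Sum.inr id := by
          funext y
          rcases y with y | y <;> rfl
        rw [h4]
        exact h3)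
      unfold Tr at h5
      rw [Formula.realize_relabel] at h5
      have h4 : (Sum.elim c' w₀ ∘ Sum.elim Sum.inl fun x => Sum.inr (e (θ i).1 x) :
          D ⊕ X → M) = Sum.elim (Sum.elim (fun a : A => (a : M)) fun x => w₀ (e (θ i).1 x)) c' ∘
          Sum.elim Sum.inr fun x => Sum.inl (Sum.inr x) := by
        funext y
        rcases y with y | y <;> rfl
      rw [h4]
      exact h5)
  refine ⟨w, fun i => ?_, fun i => ?_⟩
  · have h3 := hw (Sum.inl i)
    change ((G i).relabel _).Realize _ at h3
    rw [Formula.realize_relabel] at h3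
    exact h3
  · have h3 := hw (Sum.inr i)
    change ((θ i).2.relabel _).Realize _ at h3
    rw [Formula.realize_relabel] at h3
    have h4 : (Sum.elim c w ∘ Sum.elim Sum.inl fun x => Sum.inr (e (θ i).1 x) :
        D ⊕ X → M) = Sum.elim c fun x => w (e (θ i).1 x) := by
      funext y
      rcases y with y | y <;> rfl
    rw [h4] at h3
    exact h3

end Pool.Agent.H71.DP
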