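import Mathlib

/-!
# dp-rank of global types: definitions
-/

set_option autoImplicit false

open FirstOrder FirstOrder.Language

namespace Pool.Agent.H71.DP

variable {L : FirstOrder.Language.{0, 0}}

/-- A global type in the variables `X`: a complete type over the model `M`. Formulas with parameters
in `M` are formulas in the variables `M ⊕ X`. -/
structure GType (L : FirstOrder.Language.{0, 0}) (M : Type) [L.Structure M] (X : Type) where
  S : Set (L.Formula (M ⊕ X))
  fin : ∀ F : Set (L.Formula (M ⊕ X)), F.Finite → F ⊆ S →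
    ∃ v : X → M, ∀ φ ∈ F, φ.Realize (Sum.elim id v)
  cmp : ∀ φ, φ ∈ S ∨ φ.not ∈ S

variable {M : Type} [L.Structure M]

/-- `φ(c, x)` for a formula with parameters in `A`, variables `D` (replaced by the tuple `c`) and
`X`. -/
def sub {A : Set M} {D X : Type} (c : D → M) (φ : L.Formula ((A ⊕ D) ⊕ X)) : L.Formula (M ⊕ X) :=
  φ.relabel (Sum.map (Sum.elim (fun a : A => (a : M)) c) id)

/-- `φ(c, a)` is true. -/
def Tr {A : Set M} {D X : Type} (c : D → M) (a : X → M) (φ : L.Formula ((A ⊕ D) ⊕ X)) : Prop :=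
  φ.Realize (Sum.elim (Sum.elim (fun a : A => (a : M)) c) a)

/-- The tuple `a` realises the restriction of `p` to `A` and `c`. -/
def Realizes {X D : Type} (p : GType L M X) (A : Set M) (c : D → M) (a : X → M) : Prop :=
  ∀ φ : L.Formula ((A ⊕ D) ⊕ X), sub c φ ∈ p.S → Tr c a φ

/-- `M` is saturated over `A`: types in finitely many variables over `A` and a finite tuple are
realised. -/
def SaturatedOver (L : FirstOrder.Language.{0, 0}) {M : Type} [L.Structure M] (A : Set M) : Prop :=
  ∀ (D V : Type) [Finite D] [Finite V] (d : D → M) (S : Set (L.Formula ((A ⊕ D) ⊕ V))),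
    (∀ F : Set (L.Formula ((A ⊕ D) ⊕ V)), F.Finite → F ⊆ S → ∃ v : V → M, ∀ φ ∈ F, Tr d v φ) →
      ∃ v : V → M, ∀ φ ∈ S, Tr d v φ

/-- Tuples with the same type over `A`. -/
def SameType (L : FirstOrder.Language.{0, 0}) {M : Type} [L.Structure M] (A : Set M) {D : Type}
    (b b' : D → M) : Prop :=
  ∀ ψ : L.Formula (A ⊕ D), ψ.Realize (Sum.elim (fun a : A => (a : M)) b) ↔
    ψ.Realize (Sum.elim (fun a : A => (a : M)) b')

/-- `A`-invariant global types. -/
def Invariant {Y : Type} (q : GType L M Y) (A : Set M) : Prop :=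
  ∀ (D : Type) [Finite D] (b b' : D → M), SameType L A b b' →
    ∀ φ : L.Formula ((A ⊕ D) ⊕ Y), sub b φ ∈ q.S ↔ sub b' φ ∈ q.S

/-- For all finite tuples `c` of `M` and `a` realising the restriction of `p` to `A` and `c`, the
type of `c` over `A` and `a` extends to an `A`-invariant global type. -/
def CoInvariant {X : Type} (p : GType L M X) (A : Set M) : Prop :=
  ∀ (D : Type) [Finite D] (c : D → M) (a : X → M), Realizes p A c a →
    ∃ q : GType L M D, Invariant q A ∧
      ∀ φ : L.Formula ((A ⊕ X) ⊕ D), sub a φ ∈ q.S ↔ Tr a c φ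

/-- The restriction of a global type to `A`. -/
def GType.over {X : Type} (p : GType L M X) (A : Set M) : Set (L.Formula (M ⊕ X)) :=
  {φ | φ ∈ p.S ∧ ∃ ψ : L.Formula (A ⊕ X), φ = ψ.relabel (Sum.map (fun a : A => (a : M)) id)}

/-- ict-patterns of depth `K` in a partial type `π` over `M`: formulas `φ α` and tuples `b α i` in an
elementary extension `N` of `M`, such that for every `η` the set of formulas
`π(x) ∪ {φ α (x, b α (η α))} ∪ {¬ φ α (x, b α i) | i ≠ η α}` is consistent (with the elementary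
diagram of `N`, that is, finitely satisfiable in `N`). -/
def HasPattern {X : Type} (K : Type) (π : Set (L.Formula (M ⊕ X))) : Prop :=
  ∃ (N : Type) (_ : L.Structure N) (f : M ↪ₑ[L] N) (m : K → ℕ)
    (φ : ∀ α, L.Formula (X ⊕ Fin (m α))) (b : ∀ α, ℕ → Fin (m α) → N), ∀ η : K → ℕ,
    ∀ (F : Set (L.Formula (M ⊕ X))) (J : Set (K × ℕ)), F.Finite → F ⊆ π → J.Finite →
      ∃ a : X → N, (∀ θ ∈ F, θ.Realize (Sum.elim f a)) ∧
        ∀ z ∈ J, (φ z.1).Realize (Sum.elim a (b z.1 z.2)) ↔ z.2 = η z.1

end Pool.Agent.H71.DP
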