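import Pool.Agent.H71.DP.D

/-!
# dp-rank of global types: co-invariant types, the theorem
-/

set_option autoImplicit false

open FirstOrder FirstOrder.Language

namespace Pool.Agent.H71.DP

variable {L : FirstOrder.Language.{0, 0}} {M : Type} [L.Structure M]

/-- the type over `A` of a finite tuple of an elementary extension is realised in `M` -/
theorem sat_ext {A : Set M} (hs : SaturatedOver L A) {N : Type} [L.Structure N] (f : M ↪ₑ[L] N)
    {W : Type} [Finite W] (w : W → N) : ∃ w₀ : W → M, ∀ ψ : L.Formula (A ⊕ W),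
      ψ.Realize (Sum.elim (fun a : A => f a) w) →
        ψ.Realize (Sum.elim (fun a : A => (a : M)) w₀) := by
  classical
  obtain ⟨w₀, hw₀⟩ := hs Empty W (fun e => e.elim)
    {φ | φ.Realize (Sum.elim (Sum.elim (fun a : A => f a) fun e => e.elim) w)} (by
    intro F hF hFS
    haveI := hF.to_subtype
    obtain ⟨v, hv⟩ := elem_ex (P := A ⊕ Empty) f (fun i : F => (i : L.Formula ((A ⊕ Empty) ⊕ W)))
      (Sum.elim (fun a : A => (a : M)) fun e => e.elim) w (by
      intro i
      have h1 := hFS i.2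
      have h2 : (Sum.elim (Sum.elim (fun a : A => f a) fun e => e.elim) w :
          (A ⊕ Empty) ⊕ W → N) = Sum.elim (f ∘ Sum.elim (fun a : A => (a : M)) fun e => e.elim)
          w := by
        funext y
        rcases y with (y | y) | y
        · rfl
        · exact y.elim
        · rfl
      rw [← h2]
      exact h1)
    exact ⟨v, fun φ hφ => hv ⟨φ, hφ⟩⟩)
  refine ⟨w₀, fun ψ hψ => ?_⟩
  have h1 := hw₀ (ψ.relabel (Sum.map Sum.inl id)) (by
    show Formula.Realize _ _
    rw [Formula.realize_relabel]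
    have h2 : (Sum.elim (Sum.elim (fun a : A => f a) (fun e : Empty => e.elim)) w ∘ Sum.map Sum.inl id :
        A ⊕ W → N) = Sum.elim (fun a : A => f a) w := by
      funext y
      rcases y with y | y <;> rfl
    rw [h2]
    exact hψ)
  unfold Tr at h1
  rw [Formula.realize_relabel] at h1
  have h2 : (Sum.elim (Sum.elim (fun a : A => (a : M)) (fun e : Empty => e.elim)) w₀ ∘
      Sum.map Sum.inl id : A ⊕ W → M) = Sum.elim (fun a : A => (a : M)) w₀ := by
    funext y
    rcases y with y | y <;> rfl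
  rw [h2] at h1
  exact h1

/-- **main theorem** for co-invariant types -/
theorem coinv {A : Set M} (hs : SaturatedOver L A) {X K : Type} [Finite X] [Nonempty M]
    (p : GType L M X) (hp : CoInvariant p A) (h : HasPattern K (p.over A)) :
    HasPattern K p.S := by
  classical
  obtain ⟨N, _, f, m, φ, b, a, ha, hb⟩ := pat_real h
  let V : Type := (Σ z : K × ℕ, Fin (m z.1)) ⊕ ((K → ℕ) × X)
  let I : Type := (K → ℕ) × (p.S ⊕ (K × ℕ))
  let Φ : I → L.Formula (M ⊕ V) := fun i => match i with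
    | (η, Sum.inl θ) => (θ : L.Formula (M ⊕ X)).relabel (Sum.map id fun x => Sum.inr (η, x))
    | (η, Sum.inr z) => sgn (z.2 = η z.1) ((φ z.1).relabel
        (Sum.elim (fun x => Sum.inr (Sum.inr (η, x))) fun k => Sum.inr (Sum.inl ⟨z, k⟩)))
  have key : ∀ J : Finset I, ∃ v : V → M, ∀ i ∈ J, (Φ i).Realize (Sum.elim id v) := by
    intro J
    -- the finitely many `η`, `z` and parameters
    let E : Type := {η : K → ℕ // ∃ i ∈ J, i.1 = η}
    let Z : Type := {z : K × ℕ // ∃ i ∈ J, i.2 = Sum.inr z}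
    let J₁ : Type := {i : E × p.S // ((i.1.1, Sum.inl i.2) : I) ∈ J}
    let J₂ : Type := {i : E × Z // ((i.1.1, Sum.inr i.2.1) : I) ∈ J}
    haveI : Finite E := by
      refine Set.Finite.to_subtype ((J.finite_toSet.image Prod.fst).subset ?_)
      rintro η ⟨i, hi, rfl⟩
      exact ⟨i, hi, rfl⟩
    haveI : Finite Z := by
      refine Set.Finite.to_subtype (Set.Finite.subset (Set.Finite.preimage (f := fun z : K × ℕ =>
        (Sum.inr z : p.S ⊕ (K × ℕ))) ?_ (J.finite_toSet.image Prod.snd)) ?_)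
      · intro x _ y _ hxy
        simpa using hxy
      · rintro z ⟨i, hi, hz⟩
        exact ⟨i, hi, hz⟩
    haveI : Finite J₁ := by
      refine Set.Finite.to_subtype (Set.Finite.preimage (f := fun i : E × p.S =>
        ((i.1.1, Sum.inl i.2) : I)) ?_ J.finite_toSet)
      rintro ⟨⟨x, hx⟩, x'⟩ _ ⟨⟨y, hy⟩, y'⟩ _ hxy
      have h1 : x = y := congrArg Prod.fst hxy
      have h2 : x' = y' := Sum.inl.inj (congrArg Prod.snd hxy)
      subst h1 h2
      rfl
    haveI : Finite J₂ := inferInstance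
    haveI : Fintype J₁ := Fintype.ofFinite J₁
    let W : Type := (E × X) ⊕ (Σ z : Z, Fin (m z.1.1))
    -- the type over `A` of the pattern is realised in `M`
    obtain ⟨w₀, hw₀⟩ := sat_ext hs f (W := W)
      (Sum.elim (fun y => a y.1.1 y.2) fun y => b y.1.1.1 y.1.1.2 y.2)
    choose D₀ hD₀ using fun i : J₁ => fin1 (i.1.2 : L.Formula (M ⊕ X))
    let D₁ : Finset M := Finset.univ.biUnion D₀
    have hD₁ : ∀ i : J₁, D₀ i ⊆ D₁ := fun i => Finset.subset_biUnion_of_mem _ (Finset.mem_univ i)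
    choose θ hθ using fun i : J₁ => hD₀ i D₁ (hD₁ i)
    have hm : ∀ (i : J₁) (v : X → M), (θ i).Realize (Sum.elim (fun d : D₁ => (d : M)) v) ↔
        (i.1.2 : L.Formula (M ⊕ X)).Realize (Sum.elim id v) := fun i v => hθ i v id
    let G : J₂ → L.Formula W := fun i => sgn (i.1.2.1.2 = i.1.1.1 i.1.2.1.1)
      ((φ i.1.2.1.1).relabel
        (Sum.elim (fun x => Sum.inl (i.1.1, x)) fun k => Sum.inr ⟨i.1.2, k⟩))
    have hGr : ∀ (i : J₂) (w : W → M), (G i).Realize w ↔
        ((φ i.1.2.1.1).Realize (Sum.elim (fun x => w (Sum.inl (i.1.1, x)))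
          fun k => w (Sum.inr ⟨i.1.2, k⟩)) ↔ i.1.2.1.2 = i.1.1.1 i.1.2.1.1) := by
      intro i w
      show (sgn _ _).Realize w ↔ _
      rw [realize_sgn, Formula.realize_relabel]
      have h2 : (w ∘ Sum.elim (fun x => Sum.inl (i.1.1, x)) fun k => Sum.inr ⟨i.1.2, k⟩ :
          X ⊕ Fin (m i.1.2.1.1) → M) = Sum.elim (fun x => w (Sum.inl (i.1.1, x)))
          fun k => w (Sum.inr ⟨i.1.2, k⟩) := by
        funext y
        rcases y with y | y <;> rfl
      rw [h2]
    obtain ⟨w, hw1, hw2⟩ := move hs p hp (fun d : D₁ => (d : M)) w₀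
      (fun (η : E) x => (Sum.inl (η, x) : W)) (by
      intro η ψ hψ
      have h1 := ha η.1 _ ⟨hψ, ψ, rfl⟩
      rw [Formula.realize_relabel] at h1
      have h2 := hw₀ (ψ.relabel (Sum.map id fun x => Sum.inl (η, x))) (by
        rw [Formula.realize_relabel]
        have h3 : (Sum.elim (fun a : A => f a) (Sum.elim (fun y : E × X => a y.1.1 y.2)
            fun y => b y.1.1.1 y.1.1.2 y.2 : W → N) ∘ Sum.map id fun x => Sum.inl (η, x) :
            A ⊕ X → N) = Sum.elim f (a η.1) ∘ Sum.map (fun a : A => (a : M)) id := by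
          funext y
          rcases y with y | y <;> rfl
        rw [h3]
        exact h1)
      rw [Formula.realize_relabel] at h2
      have h3 : (Sum.elim (fun a : A => (a : M)) w₀ ∘ Sum.map id fun x => Sum.inl (η, x) :
          A ⊕ X → M) = Sum.elim (fun a : A => (a : M)) fun x => w₀ (Sum.inl (η, x)) := by
        funext y
        rcases y with y | y <;> rfl
      rw [h3] at h2
      exact h2) G (by
      intro i
      have h1 := hw₀ ((G i).relabel Sum.inr) (by
        rw [Formula.realize_relabel]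
        show (sgn _ _).Realize _
        rw [realize_sgn, Formula.realize_relabel]
        have h3 : ((Sum.elim (fun a : A => f a) (Sum.elim (fun y : E × X => a y.1.1 y.2)
            fun y => b y.1.1.1 y.1.1.2 y.2 : W → N) ∘ Sum.inr) ∘
            Sum.elim (fun x => Sum.inl (i.1.1, x)) fun k => Sum.inr ⟨i.1.2, k⟩ :
            X ⊕ Fin (m i.1.2.1.1) → N) = Sum.elim (a i.1.1.1) (b i.1.2.1.1 i.1.2.1.2) := by
          funext y
          rcases y with y | y <;> rfl
        rw [h3]
        exact hb i.1.1.1 i.1.2.1)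
      rw [Formula.realize_relabel] at h1
      exact h1) (ι' := J₁) (fun i => (i.1.1, θ i)) (by
      intro i
      refine mem_congr p i.1.2.2 fun v hv => ?_
      rw [Formula.realize_relabel]
      have h3 : (Sum.elim id v ∘ Sum.map (fun d : D₁ => (d : M)) id : D₁ ⊕ X → M) =
          Sum.elim (fun d : D₁ => (d : M)) v := by
        funext y
        rcases y with y | y <;> rfl
      rw [h3, hm]
      exact hv)
    let y₀ : M := Classical.arbitrary M
    refine ⟨Sum.elim (fun y => if hz : ∃ i ∈ J, i.2 = Sum.inr y.1 then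
      w (Sum.inr ⟨⟨y.1, hz⟩, y.2⟩) else y₀) fun y => if hη : ∃ i ∈ J, i.1 = y.1 then
      w (Sum.inl (⟨y.1, hη⟩, y.2)) else y₀, ?_⟩
    rintro ⟨η, θ' | z⟩ hi
    · have hη : ∃ i ∈ J, i.1 = η := ⟨_, hi, rfl⟩
      have h1 := hw2 ⟨(⟨η, hη⟩, θ'), hi⟩
      show ((θ' : L.Formula (M ⊕ X)).relabel (Sum.map id fun x => Sum.inr (η, x))).Realize _
      rw [Formula.realize_relabel]
      have h2 := (hm ⟨(⟨η, hη⟩, θ'), hi⟩ _).1 h1
      refine Eq.mp (congrArg (Formula.Realize _) ?_) h2
      funext y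
      rcases y with y | x
      · rfl
      · show w (Sum.inl (⟨η, hη⟩, x)) = dite _ _ _
        rw [dif_pos hη]
    · have hη : ∃ i ∈ J, i.1 = η := ⟨_, hi, rfl⟩
      have hz : ∃ i ∈ J, i.2 = Sum.inr z := ⟨_, hi, rfl⟩
      have h1 := (hGr ⟨(⟨η, hη⟩, ⟨z, hz⟩), hi⟩ w).1 (hw1 ⟨(⟨η, hη⟩, ⟨z, hz⟩), hi⟩)
      show (sgn _ _).Realize _
      rw [realize_sgn, Formula.realize_relabel]
      refine Eq.mp (congrArg (fun u => Formula.Realize (φ z.1) u ↔ z.2 = η z.1) ?_) h1
      funext y
      rcases y with x | k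
      · show w (Sum.inl (⟨η, hη⟩, x)) = dite _ _ _
        rw [dif_pos hη]
      · show w (Sum.inr ⟨⟨z, hz⟩, k⟩) = dite _ _ _
        rw [dif_pos hz]
  obtain ⟨N', _, f', v, hv⟩ := comp Φ key
  refine ⟨N', inferInstance, f', m, φ, fun α i k => v (Sum.inl ⟨(α, i), k⟩), ?_⟩
  intro η F J hF hFp hJ
  refine ⟨fun x => v (Sum.inr (η, x)), fun θ hθ => ?_, fun z _ => ?_⟩
  · have h1 := hv (η, Sum.inl ⟨θ, hFp hθ⟩)
    change (θ.relabel (Sum.map id fun x => Sum.inr (η, x))).Realize _ at h1
    rw [Formula.realize_relabel] at h1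
    refine Eq.mp (congrArg (Formula.Realize _) ?_) h1
    funext y
    rcases y with y | y <;> rfl
  · have h1 := hv (η, Sum.inr z)
    change (sgn _ _).Realize _ at h1
    rw [realize_sgn, Formula.realize_relabel] at h1
    refine Eq.mp (congrArg (fun u => Formula.Realize (φ z.1) u ↔ z.2 = η z.1) ?_) h1
    funext y
    rcases y with y | y <;> rfl

/-- patterns in a larger partial type are patterns in a smaller one -/
theorem pat_mono {X K : Type} {π π' : Set (L.Formula (M ⊕ X))} (hπ : π' ⊆ π)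
    (h : HasPattern K π) : HasPattern K π' := by
  obtain ⟨N, i, f, m, φ, b, h⟩ := h
  exact ⟨N, i, f, m, φ, b, fun η F J hF hFp hJ => h η F J hF (hFp.trans hπ) hJ⟩

theorem over_sub {X : Type} (p : GType L M X) (A : Set M) : p.over A ⊆ p.S := fun _ h => h.1

end Pool.Agent.H71.DP
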